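import Pool.Agent.R862.GC.Kos3

/-!
MP_764677_ag, Q1: the graded Betti number `b_{n-1,n}` of a graph curve is the number of bridges of
the graph.
-/

set_option autoImplicit false

namespace Pool.Agent.Results.MP_764677_ag.Bridges

open Pool.Agent.R862.GC

universe u

/-- `G` is connected and strictly subtrivalent: every vertex has degree at most `3` and not every
vertex has degree `3`. -/
structure StrictlySubtrivalent {V : Type} (G : SimpleGraph V) : Prop where
  connected : G.Connected
  degree_le : ∀ v, (G.neighborSet v).ncard ≤ 3
  degree_ne : ∃ v, (G.neighborSet v).ncard ≠ 3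

/-- For every connected strictly subtrivalent finite graph `G` with `d` vertices and genus `g`, and
every graph curve `L` of `G` in `ℙ^n`, `n = d - g`, over any field, the graded Betti number
`b_{n-1,n}` is the number of bridges of `G`. -/
theorem result {k : Type u} [Field k] {V : Type} [Finite V] (G : SimpleGraph V)
    (hG : StrictlySubtrivalent G) {n : ℕ} (hn : (n : ℤ) = Nat.card V - genus G)
    (L : V → Submodule k (Fin (n + 1) → k)) (hL : IsGraphCurve G L) :
    betti (vanIdeal L) (n - 1) n = (bridges G).ncard := by
  classical
  have := Fintype.ofFinite V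
  have hdeg : ∀ v, (G.neighborSet v).ncard = G.degree v := by
    intro v
    rw [← SimpleGraph.card_neighborFinset_eq_degree, ← Set.ncard_coe_finset,
      SimpleGraph.coe_neighborFinset]
  refine betti_bridges hG.connected (fun v => ?_) ?_ hL hn
  · rw [← hdeg]
    exact hG.degree_le v
  · obtain ⟨v, hv⟩ := hG.degree_ne
    have h1 := hG.degree_le v
    rw [hdeg] at h1 hv
    exact ⟨v, by omega⟩

end Pool.Agent.Results.MP_764677_ag.Bridges
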